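import Mathlib

set_option autoImplicit false

/-!
# The v-number can drop when passing from an ideal to its square

For every field `K` and every `N ≥ 4` the monomial ideal
`I = (x y, y z, z x, x ^ N, y ^ N, z ^ N)` of `K[x, y, z]` satisfies `v(I) = N - 1` and
`v(I ^ 2) = 3`.
-/

namespace Pool.Agent.Results.MP_0bcfe8_al.ArbitraryDrop

open MvPolynomial
open scoped Pointwise

universe u

/-- The v-number of an ideal `J` of the polynomial ring: the least degree of a homogeneous
polynomial `f` such that the colon ideal `(J : f)` is an associated prime of `J`. -/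
noncomputable def vNumber {n : ℕ} {K : Type u} [Field K] (J : Ideal (MvPolynomial (Fin n) K)) :
    ℕ :=
  sInf {d | ∃ f : MvPolynomial (Fin n) K,
    f.IsHomogeneous d ∧ Submodule.colon J {f} ∈ Submodule.associatedPrimes J}

/-- The ideal `(x y, y z, z x, x ^ N, y ^ N, z ^ N)` of `K[x, y, z]`. -/
noncomputable def I3 (K : Type u) [Field K] (N : ℕ) : Ideal (MvPolynomial (Fin 3) K) :=
  Ideal.span {X 0 * X 1, X 1 * X 2, X 2 * X 0, X 0 ^ N, X 1 ^ N, X 2 ^ N}

section

variable {K : Type u} [Field K]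

/-- The exponents of the generators. -/
def T (N : ℕ) : Set (Fin 3 →₀ ℕ) :=
  {Finsupp.single 0 1 + Finsupp.single 1 1, Finsupp.single 1 1 + Finsupp.single 2 1,
    Finsupp.single 2 1 + Finsupp.single 0 1, Finsupp.single 0 N, Finsupp.single 1 N,
    Finsupp.single 2 N}

theorem I3_eq (N : ℕ) : I3 K N = Ideal.span ((fun s => monomial s (1 : K)) '' T N) := by
  unfold I3 T
  congr 1
  simp only [Set.image_insert_eq, Set.image_singleton, X_pow_eq_monomial]
  simp only [X, monomial_mul, mul_one]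

theorem colon_mem (J : Ideal (MvPolynomial (Fin 3) K)) (f g : MvPolynomial (Fin 3) K) :
    g ∈ Submodule.colon J {f} ↔ g * f ∈ J := by
  rw [Submodule.mem_colon_singleton, smul_eq_mul]

/-- The ideal of the polynomials without constant term. -/
noncomputable def M3 (K : Type u) [Field K] : Ideal (MvPolynomial (Fin 3) K) :=
  RingHom.ker (constantCoeff (R := K) (σ := Fin 3))

theorem M3_max : (M3 K).IsMaximal := by
  unfold M3
  apply RingHom.ker_isMaximal_of_surjective
  intro c
  exact ⟨C c, constantCoeff_C _ c⟩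

theorem M3_le {P : Ideal (MvPolynomial (Fin 3) K)} (h : ∀ i, (X i : MvPolynomial (Fin 3) K) ∈ P) :
    M3 K ≤ P := by
  intro f hf
  have h1 : f ∈ Ideal.span (X '' (Set.univ : Set (Fin 3)) : Set (MvPolynomial (Fin 3) K)) := by
    rw [mem_ideal_span_X_image]
    intro m hm
    by_contra hcon
    push Not at hcon
    have hm0 : m = 0 := by
      ext i
      exact hcon i (Set.mem_univ _)
    subst hm0
    rw [mem_support_iff] at hm
    exact hm hf
  refine (Ideal.span_le.2 ?_) h1
  rintro _ ⟨i, -, rfl⟩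
  exact h i

theorem eq_M3 {P : Ideal (MvPolynomial (Fin 3) K)} (h : ∀ i, (X i : MvPolynomial (Fin 3) K) ∈ P)
    (hP : P ≠ ⊤) : P = M3 K :=
  (M3_max.eq_of_le hP (M3_le h)).symm

/-- If all variables multiply `f` into `J` and `f` is not in `J`, then `(J : f)` is an associated
prime of `J`. -/
theorem colon_assoc {J : Ideal (MvPolynomial (Fin 3) K)} {f : MvPolynomial (Fin 3) K}
    (h : ∀ i, X i * f ∈ J) (hf : f ∉ J) :
    Submodule.colon J {f} ∈ Submodule.associatedPrimes J := by
  have h1 : Submodule.colon J {f} = M3 K := by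
    apply eq_M3
    · intro i
      rw [colon_mem]
      exact h i
    · intro htop
      apply hf
      have : (1 : MvPolynomial (Fin 3) K) ∈ Submodule.colon J {f} := by rw [htop]; trivial
      rw [colon_mem, one_mul] at this
      exact this
  have hpr : (Submodule.colon J {f}).IsPrime := by
    rw [h1]
    exact M3_max.isPrime
  exact ⟨hpr, f, hpr.radical.symm⟩

/-- Conversely, when `J` contains powers of all the variables. -/
theorem of_colon_assoc {J : Ideal (MvPolynomial (Fin 3) K)} {f : MvPolynomial (Fin 3) K}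
    (hJ : ∀ i, ∃ k, (X i : MvPolynomial (Fin 3) K) ^ k ∈ J)
    (h : Submodule.colon J {f} ∈ Submodule.associatedPrimes J) :
    (∀ i, X i * f ∈ J) ∧ f ∉ J := by
  have hpr : (Submodule.colon J {f}).IsPrime := h.1
  constructor
  · intro i
    obtain ⟨k, hk⟩ := hJ i
    have h1 : (X i : MvPolynomial (Fin 3) K) ^ k ∈ Submodule.colon J {f} := by
      rw [colon_mem]
      exact Ideal.mul_mem_right _ _ hk
    have h2 := hpr.mem_of_pow_mem k h1
    rw [colon_mem] at h2
    exact h2
  · intro hf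
    apply hpr.ne_top
    rw [Ideal.eq_top_iff_one, colon_mem, one_mul]
    exact hf

theorem mem_I3 {N : ℕ} {f : MvPolynomial (Fin 3) K} :
    f ∈ I3 K N ↔ ∀ u ∈ f.support, ∃ t ∈ T N, t ≤ u := by
  rw [I3_eq, mem_ideal_span_monomial_image]

/-- The exponents in `I3`, explicitly. -/
theorem exp_iff (N : ℕ) (u : Fin 3 →₀ ℕ) : (∃ t ∈ T N, t ≤ u) ↔
    (1 ≤ u 0 ∧ 1 ≤ u 1) ∨ (1 ≤ u 1 ∧ 1 ≤ u 2) ∨ (1 ≤ u 0 ∧ 1 ≤ u 2) ∨ N ≤ u 0 ∨ N ≤ u 1 ∨
      N ≤ u 2 := by
  unfold T
  simp only [Set.mem_insert_iff, Set.mem_singleton_iff, exists_eq_or_imp, exists_eq_left,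
    Finsupp.le_def, Fin.forall_fin_succ, Finsupp.add_apply]
  simp [Finsupp.single_apply, Fin.ext_iff]

theorem degree_eq (u : Fin 3 →₀ ℕ) : u.degree = u 0 + u 1 + u 2 := by
  rw [Finsupp.degree_eq_sum, Fin.sum_univ_three]

theorem hom_degree {f : MvPolynomial (Fin 3) K} {d : ℕ} (hf : f.IsHomogeneous d)
    {u : Fin 3 →₀ ℕ} (hu : u ∈ f.support) : u 0 + u 1 + u 2 = d := by
  have h := hf (mem_support_iff.1 hu)
  have h2 : u.degree = Finsupp.weight (1 : Fin 3 → ℕ) u := by
    rw [Finsupp.degree_eq_weight_one (R := ℕ)]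
    rfl
  rw [← degree_eq, h2]
  exact h

theorem pow_mem (N : ℕ) (i : Fin 3) : (X i : MvPolynomial (Fin 3) K) ^ N ∈ I3 K N := by
  unfold I3
  apply Ideal.subset_span
  fin_cases i <;> simp

/-- The support of `X i * f`. -/
theorem mem_support_X_mul' {f : MvPolynomial (Fin 3) K} {u : Fin 3 →₀ ℕ} (i : Fin 3)
    (hu : u ∈ f.support) : Finsupp.single i 1 + u ∈ (X i * f).support := by
  rw [mem_support_iff, coeff_X_mul]
  exact mem_support_iff.1 hu

theorem monomial_mem_I3 {N : ℕ} {u : Fin 3 →₀ ℕ} (h : ∃ t ∈ T N, t ≤ u) :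
    monomial u (1 : K) ∈ I3 K N := by
  classical
  rw [mem_I3]
  intro v hv
  rw [support_monomial, if_neg one_ne_zero, Finset.mem_singleton] at hv
  subst hv
  exact h

theorem v_I3 {N : ℕ} (hN : 4 ≤ N) : vNumber (I3 K N) = N - 1 := by
  classical
  have hmem : N - 1 ∈ {d | ∃ f : MvPolynomial (Fin 3) K,
      f.IsHomogeneous d ∧ Submodule.colon (I3 K N) {f} ∈
        Submodule.associatedPrimes (I3 K N)} := by
    refine ⟨X 0 ^ (N - 1), ?_, ?_⟩
    · simpa using (isHomogeneous_X K (0 : Fin 3)).pow (N - 1)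
    · apply colon_assoc
      · intro i
        have h1 : X i * (X 0 : MvPolynomial (Fin 3) K) ^ (N - 1) =
            monomial (Finsupp.single i 1 + Finsupp.single 0 (N - 1)) (1 : K) := by
          rw [X_pow_eq_monomial, X, monomial_mul, mul_one]
        rw [h1]
        apply monomial_mem_I3
        rw [exp_iff]
        fin_cases i <;> simp <;> omega
      · rw [mem_I3]
        intro h
        have h1 := h (Finsupp.single 0 (N - 1)) (by
          rw [X_pow_eq_monomial, support_monomial, if_neg one_ne_zero]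
          simp)
        rw [exp_iff] at h1
        simp at h1
        omega
  unfold vNumber
  apply le_antisymm
  · exact Nat.sInf_le hmem
  · apply le_csInf ⟨_, hmem⟩
    rintro d ⟨f, hf, hass⟩
    obtain ⟨h1, h2⟩ := of_colon_assoc (fun i => ⟨N, pow_mem N i⟩) hass
    rw [mem_I3] at h2
    push Not at h2
    obtain ⟨u, hu, hu2⟩ := h2
    have hdeg := hom_degree hf hu
    have hu3 : ¬ ∃ t ∈ T N, t ≤ u := by
      push Not
      exact hu2
    rw [exp_iff] at hu3
    have k0 := mem_I3.1 (h1 0) _ (mem_support_X_mul' 0 hu)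
    have k1 := mem_I3.1 (h1 1) _ (mem_support_X_mul' 1 hu)
    have k2 := mem_I3.1 (h1 2) _ (mem_support_X_mul' 2 hu)
    rw [exp_iff] at k0 k1 k2
    simp at k0 k1 k2
    omega

/-- Every exponent of an element of the square is at least a sum of two exponents of
generators. -/
theorem mem_sq {N : ℕ} {f : MvPolynomial (Fin 3) K} (hf : f ∈ I3 K N ^ 2) :
    ∀ u ∈ f.support, ∃ s ∈ T N, ∃ t ∈ T N, s + t ≤ u := by
  have h : I3 K N ^ 2 ≤ Ideal.span ((fun s => monomial s (1 : K)) '' (T N + T N)) := by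
    rw [pow_two, I3_eq, Ideal.span_mul_span', Ideal.span_le]
    rintro _ ⟨_, ⟨s, hs, rfl⟩, _, ⟨t, ht, rfl⟩, rfl⟩
    apply Ideal.subset_span
    refine ⟨s + t, Set.add_mem_add hs ht, ?_⟩
    simp only [monomial_mul, mul_one]
  intro u hu
  have h1 := mem_ideal_span_monomial_image.1 (h hf) u hu
  obtain ⟨_, ⟨s, hs, t, ht, rfl⟩, hle⟩ := h1
  exact ⟨s, hs, t, ht, hle⟩

theorem T_degree {N : ℕ} (hN : 4 ≤ N) {s : Fin 3 →₀ ℕ} (hs : s ∈ T N) :
    2 ≤ s 0 + s 1 + s 2 := by
  have h := (exp_iff N s).1 ⟨s, hs, le_rfl⟩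
  omega

theorem sq_degree {N : ℕ} (hN : 4 ≤ N) {f : MvPolynomial (Fin 3) K} (hf : f ∈ I3 K N ^ 2) :
    ∀ u ∈ f.support, 4 ≤ u 0 + u 1 + u 2 := by
  intro u hu
  obtain ⟨s, hs, t, ht, hle⟩ := mem_sq hf u hu
  have h1 := T_degree hN hs
  have h2 := T_degree hN ht
  have e0 := hle 0
  have e1 := hle 1
  have e2 := hle 2
  simp only [Finsupp.add_apply] at e0 e1 e2
  omega

theorem v_sq {N : ℕ} (hN : 4 ≤ N) : vNumber (I3 K N ^ 2) = 3 := by
  classical
  have g1 : (X 0 * X 1 : MvPolynomial (Fin 3) K) ∈ I3 K N := Ideal.subset_span (by simp)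
  have g2 : (X 1 * X 2 : MvPolynomial (Fin 3) K) ∈ I3 K N := Ideal.subset_span (by simp)
  have g3 : (X 2 * X 0 : MvPolynomial (Fin 3) K) ∈ I3 K N := Ideal.subset_span (by simp)
  have hmem : 3 ∈ {d | ∃ f : MvPolynomial (Fin 3) K,
      f.IsHomogeneous d ∧ Submodule.colon (I3 K N ^ 2) {f} ∈
        Submodule.associatedPrimes (I3 K N ^ 2)} := by
    refine ⟨X 0 * X 1 * X 2, ?_, ?_⟩
    · exact ((isHomogeneous_X K (0 : Fin 3)).mul (isHomogeneous_X K 1)).mul (isHomogeneous_X K 2)
    · apply colon_assoc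
      · intro i
        rw [pow_two]
        fin_cases i
        · have h : (X 0 * (X 0 * X 1 * X 2) : MvPolynomial (Fin 3) K) =
              (X 0 * X 1) * (X 2 * X 0) := by ring
          simp only [Fin.zero_eta]
          rw [h]
          exact Ideal.mul_mem_mul g1 g3
        · have h : (X 1 * (X 0 * X 1 * X 2) : MvPolynomial (Fin 3) K) =
              (X 0 * X 1) * (X 1 * X 2) := by ring
          simp only [Fin.mk_one]
          rw [h]
          exact Ideal.mul_mem_mul g1 g2
        · have h : (X 2 * (X 0 * X 1 * X 2) : MvPolynomial (Fin 3) K) =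
              (X 1 * X 2) * (X 2 * X 0) := by ring
          simp only [Fin.reduceFinMk]
          rw [h]
          exact Ideal.mul_mem_mul g2 g3
      · intro h
        have h1 : (X 0 * X 1 * X 2 : MvPolynomial (Fin 3) K) =
            monomial (Finsupp.single 0 1 + Finsupp.single 1 1 + Finsupp.single 2 1) (1 : K) := by
          simp only [X, monomial_mul, mul_one]
        have h2 := sq_degree hN h (Finsupp.single 0 1 + Finsupp.single 1 1 + Finsupp.single 2 1)
          (by rw [h1, support_monomial, if_neg one_ne_zero]; simp)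
        simp at h2
  unfold vNumber
  apply le_antisymm
  · exact Nat.sInf_le hmem
  · apply le_csInf ⟨_, hmem⟩
    rintro d ⟨f, hf, hass⟩
    obtain ⟨h1, h2⟩ := of_colon_assoc (fun i => ⟨N * 2, by
      rw [pow_mul]
      exact Ideal.pow_mem_pow (pow_mem N i) 2⟩) hass
    have hf0 : f ≠ 0 := by
      rintro rfl
      exact h2 (Ideal.zero_mem _)
    obtain ⟨u, hu⟩ := support_nonempty.2 hf0
    have hdeg := hom_degree hf hu
    have k0 := sq_degree hN (h1 0) _ (mem_support_X_mul' 0 hu)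
    simp at k0
    omega

theorem I3_homogeneous (N : ℕ) (f : MvPolynomial (Fin 3) K) (hf : f ∈ I3 K N) (d : ℕ) :
    homogeneousComponent d f ∈ I3 K N := by
  rw [mem_I3] at hf ⊢
  intro u hu
  apply hf
  rw [mem_support_iff, coeff_homogeneousComponent] at hu
  rw [mem_support_iff]
  intro h0
  apply hu
  split_ifs
  · exact h0
  · rfl

theorem I3_ne_bot {N : ℕ} : I3 K N ≠ ⊥ := by
  intro h
  have h1 := pow_mem (K := K) N 0
  rw [h, Ideal.mem_bot] at h1
  exact pow_ne_zero N (X_ne_zero (0 : Fin 3)) h1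

theorem I3_ne_top {N : ℕ} (hN : 4 ≤ N) : I3 K N ≠ ⊤ := by
  classical
  intro h
  have h1 : (monomial 0 (1 : K)) ∈ I3 K N := by rw [h]; trivial
  have h2 := mem_I3.1 h1 0 (by rw [support_monomial, if_neg one_ne_zero]; simp)
  rw [exp_iff] at h2
  simp at h2
  omega

end

/-- **The v-number of the square can be smaller than the v-number of the ideal, by an arbitrary
amount.** For every field `K` and every `N ≥ 4`, the ideal
`I = (x y, y z, z x, x ^ N, y ^ N, z ^ N)` of `K[x, y, z]` is homogeneous, nonzero and proper,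
`v(I) = N - 1` and `v(I ^ 2) = 3`. -/
theorem result (K : Type u) [Field K] (N : ℕ) (hN : 4 ≤ N) :
    (∀ f ∈ I3 K N, ∀ d : ℕ, homogeneousComponent d f ∈ I3 K N) ∧ I3 K N ≠ ⊥ ∧ I3 K N ≠ ⊤ ∧
      vNumber (I3 K N) = N - 1 ∧ vNumber (I3 K N ^ 2) = 3 :=
  ⟨I3_homogeneous N, I3_ne_bot, I3_ne_top hN, v_I3 hN, v_sq hN⟩

end Pool.Agent.Results.MP_0bcfe8_al.ArbitraryDrop
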