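import Pool.Agent.R689.VNum

/-!
# The v-number of powers need not grow (MP_0bcfe8_al, Q1)

For `I = (xy, xz, yz, x ^ (m + 4), y ^ (m + 4), z ^ (m + 4))` in `K[x, y, z]` one has
`v(I) = m + 3` and `v(I ^ 2) = 3`.
-/

set_option autoImplicit false

namespace Pool.Agent.Results.MP_0bcfe8_al.NotMonotone

open MvPolynomial Pool.Agent.R689.VNum

/-- The v-number of `J`: the least degree of a homogeneous `f` such that the colon ideal `(J : f)`
is an associated prime of `J`. -/
noncomputable def vNumber {n : ℕ} {K : Type*} [Field K] (J : Ideal (MvPolynomial (Fin n) K)) : ℕ :=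
  sInf {d | ∃ f : MvPolynomial (Fin n) K, f.IsHomogeneous d ∧ ∃ p ∈ Ass J, ColonEq J f p}

/-- exponent vectors -/
noncomputable def ex (a b c : ℕ) : Fin 3 →₀ ℕ :=
  Finsupp.single 0 a + Finsupp.single 1 b + Finsupp.single 2 c

lemma ex0 (a b c : ℕ) : ex a b c 0 = a := by simp [ex]
lemma ex1 (a b c : ℕ) : ex a b c 1 = b := by simp [ex]
lemma ex2 (a b c : ℕ) : ex a b c 2 = c := by simp [ex]

lemma ex_le {a b c : ℕ} {u : Fin 3 →₀ ℕ} : ex a b c ≤ u ↔ a ≤ u 0 ∧ b ≤ u 1 ∧ c ≤ u 2 := by
  rw [Finsupp.le_def]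
  constructor
  · intro h
    have h0 := h 0
    have h1 := h 1
    have h2 := h 2
    rw [ex0] at h0
    rw [ex1] at h1
    rw [ex2] at h2
    exact ⟨h0, h1, h2⟩
  · rintro ⟨h0, h1, h2⟩ i
    fin_cases i
    · simpa [ex0] using h0
    · simpa [ex1] using h1
    · simpa [ex2] using h2

lemma degree3 (u : Fin 3 →₀ ℕ) : u.degree = u 0 + u 1 + u 2 := by
  rw [Finsupp.degree_eq_sum, Fin.sum_univ_three]

lemma ex_degree (a b c : ℕ) : (ex a b c).degree = a + b + c := by
  rw [degree3, ex0, ex1, ex2]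

/-- the exponents of the generators -/
def gens (m : ℕ) : Set (Fin 3 →₀ ℕ) :=
  {ex 1 1 0, ex 1 0 1, ex 0 1 1, ex (m + 4) 0 0, ex 0 (m + 4) 0, ex 0 0 (m + 4)}

/-- the ideal `(xy, xz, yz, x ^ (m + 4), y ^ (m + 4), z ^ (m + 4))` -/
noncomputable def I (K : Type*) [Field K] (m : ℕ) : Ideal (MvPolynomial (Fin 3) K) :=
  monIdeal K (gens m)

variable {K : Type*} [Field K] {m : ℕ}

lemma mem_I {u : Fin 3 →₀ ℕ} {g : Fin 3 →₀ ℕ} (hg : g ∈ gens m) (h : g ≤ u) :
    (monomial u 1 : MvPolynomial (Fin 3) K) ∈ I K m := monomial_mem.mpr ⟨g, hg, h⟩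

lemma I_le : I K m ≤ idealOfVars (Fin 3) K ^ 2 := by
  intro f hf
  rw [mem_pow_idealOfVars_iff]
  intro u hu
  obtain ⟨a, ha, hau⟩ := mem_monIdeal.mp hf u hu
  refine le_trans ?_ (Finsupp.degree_mono hau)
  rcases ha with rfl | rfl | rfl | rfl | rfl | rfl <;> rw [ex_degree] <;> omega

lemma I_sq_le : I K m ^ 2 ≤ idealOfVars (Fin 3) K ^ 4 := by
  rw [show 4 = 2 * 2 from rfl, pow_mul]
  exact Ideal.pow_right_mono I_le 2

lemma X_mul_mon (i : Fin 3) (u : Fin 3 →₀ ℕ) :
    (X i * monomial u 1 : MvPolynomial (Fin 3) K) = monomial (u + Finsupp.single i 1) 1 := by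
  rw [X, monomial_mul, one_mul, add_comm]

lemma X_pow_mem (i : Fin 3) : (X i ^ (m + 4) : MvPolynomial (Fin 3) K) ∈ I K m := by
  rw [X_pow_eq_monomial]
  fin_cases i
  · refine mem_I (g := ex (m + 4) 0 0) (by simp [gens]) ?_
    rw [ex_le]; simp
  · refine mem_I (g := ex 0 (m + 4) 0) (by simp [gens]) ?_
    rw [ex_le]; simp
  · refine mem_I (g := ex 0 0 (m + 4)) (by simp [gens]) ?_
    rw [ex_le]; simp

/-- every proper prime colon ideal of a power of `I` is the maximal ideal -/
lemma prime_eq {k : ℕ} {p : Ideal (MvPolynomial (Fin 3) K)}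
    (hp : p.IsPrime) {f : MvPolynomial (Fin 3) K} (h : ColonEq (I K m ^ k) f p) :
    p = idealOfVars (Fin 3) K := by
  have h1 : ∀ i, (X i : MvPolynomial (Fin 3) K) ∈ p := by
    intro i
    apply hp.mem_of_pow_mem ((m + 4) * k)
    rw [h, pow_mul]
    exact Ideal.mul_mem_right _ _ (Ideal.pow_mem_pow (X_pow_mem i) k)
  have h2 : idealOfVars (Fin 3) K ≤ p := by
    rw [idealOfVars, Ideal.span_le]
    rintro _ ⟨i, rfl⟩
    exact h1 i
  refine le_antisymm ?_ h2
  intro g hg
  rw [Pool.Agent.R689.VNum.mem_vars]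
  by_contra hc
  apply hp.ne_top
  rw [Ideal.eq_top_iff_one]
  have h4 : g - C (coeff 0 g) ∈ idealOfVars (Fin 3) K := by
    rw [Pool.Agent.R689.VNum.mem_vars]
    simp
  have h5 := p.sub_mem hg (h2 h4)
  have h6 : g - (g - C (coeff 0 g)) = C (coeff 0 g) := by ring
  rw [h6] at h5
  have h7 := p.mul_mem_left (C (coeff 0 g)⁻¹) h5
  rwa [← C_mul, inv_mul_cancel₀ hc, C_1] at h7

/-- the socle monomial of `I ^ 2` -/
lemma socle : ColonEq (I K m ^ 2) (monomial (ex 1 1 1) 1) (idealOfVars (Fin 3) K) := by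
  classical
  apply colonEq_vars
  · intro h
    have h1 := I_sq_le h
    rw [mem_pow_idealOfVars_iff] at h1
    have h2 := h1 (ex 1 1 1) (by simp)
    rw [ex_degree] at h2
    omega
  · have key : ∀ u v : Fin 3 →₀ ℕ, u ∈ gens m → v ∈ gens m →
        (monomial (u + v) 1 : MvPolynomial (Fin 3) K) ∈ I K m ^ 2 := by
      intro u v hu hv
      have : (monomial (u + v) 1 : MvPolynomial (Fin 3) K) = monomial u 1 * monomial v 1 := by
        rw [monomial_mul, one_mul]
      rw [this, pow_two]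
      exact Ideal.mul_mem_mul (mem_I hu le_rfl) (mem_I hv le_rfl)
    intro i
    rw [X_mul_mon]
    fin_cases i
    · have h := key (ex 1 1 0) (ex 1 0 1) (by simp [gens]) (by simp [gens])
      convert h using 3
      ext i
      fin_cases i <;> simp [ex]
    · have h := key (ex 1 1 0) (ex 0 1 1) (by simp [gens]) (by simp [gens])
      convert h using 3
      ext i
      fin_cases i <;> simp [ex]
    · have h := key (ex 1 0 1) (ex 0 1 1) (by simp [gens]) (by simp [gens])
      convert h using 3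
      ext i
      fin_cases i <;> simp [ex]

/-- the socle monomial of `I` -/
lemma socle_one : ColonEq (I K m) (monomial (ex (m + 3) 0 0) 1) (idealOfVars (Fin 3) K) := by
  apply colonEq_monomial
  · rintro ⟨a, ha, h⟩
    rcases ha with rfl | rfl | rfl | rfl | rfl | rfl <;> rw [ex_le, ex0, ex1, ex2] at h <;> omega
  · intro i
    fin_cases i
    · refine ⟨ex (m + 4) 0 0, by simp [gens], ?_⟩
      rw [ex_le]
      simp [ex]
    · refine ⟨ex 1 1 0, by simp [gens], ?_⟩
      rw [ex_le]
      simp [ex]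
    · refine ⟨ex 1 0 1, by simp [gens], ?_⟩
      rw [ex_le]
      simp [ex]

/-- Over every infinite field `K` and for every natural number `m` there is a nonzero proper
homogeneous ideal `I` of `K[x, y, z]` with `v(I) = m + 3` and `v(I ^ 2) = 3`. -/
theorem result (K : Type*) [Field K] [Infinite K] (m : ℕ) :
    ∃ I : Ideal (MvPolynomial (Fin 3) K), Homog I ∧ I ≠ ⊥ ∧ I ≠ ⊤ ∧
      vNumber I = m + 3 ∧ vNumber (I ^ 2) = 3 := by
  classical
  refine ⟨I K m, monIdeal_homogeneous _, ?_, ?_, ?_, ?_⟩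
  · intro h
    have h1 := X_pow_mem (K := K) (m := m) 0
    rw [h, Submodule.mem_bot] at h1
    exact pow_ne_zero _ (X_ne_zero _) h1
  · intro h
    have h1 : (monomial (ex (m + 3) 0 0) 1 : MvPolynomial (Fin 3) K) ∈ I K m := by
      rw [h]; exact Submodule.mem_top
    exact socle_one.vars.1 h1
  · apply le_antisymm
    · apply Nat.sInf_le
      exact ⟨_, isHomogeneous_monomial 1 (by rw [ex_degree]), _, ⟨vars_isPrime, _, socle_one⟩,
        socle_one⟩
    · apply le_csInf
      · exact ⟨_, _, isHomogeneous_monomial 1 rfl, _, ⟨vars_isPrime, _, socle_one⟩, socle_one⟩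
      · rintro d ⟨f, hf, p, ⟨hp, -⟩, hc⟩
        have hp' : p = idealOfVars (Fin 3) K := prime_eq (k := 1) (m := m) hp (by rwa [pow_one])
        subst hp'
        obtain ⟨u, hu, h1, h2⟩ := exists_socle hf hc
        rw [degree3] at hu
        have hn : ∀ a ∈ gens m, ¬ a ≤ u := fun a ha h => h1 ⟨a, ha, h⟩
        have n1 := hn (ex 1 1 0) (by simp [gens])
        have n2 := hn (ex 1 0 1) (by simp [gens])
        have n3 := hn (ex 0 1 1) (by simp [gens])
        rw [ex_le] at n1 n2 n3
        have s0 := h2 0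
        have s1 := h2 1
        have s2 := h2 2
        simp only [gens, Set.mem_insert_iff, Set.mem_singleton_iff, exists_eq_or_imp,
          exists_eq_left, ex_le, Finsupp.add_apply, Finsupp.single_apply] at s0 s1 s2
        simp at s0 s1 s2
        omega
  · apply le_antisymm
    · apply Nat.sInf_le
      exact ⟨monomial (ex 1 1 1) 1, isHomogeneous_monomial 1 (by rw [ex_degree]), _,
        ⟨vars_isPrime, _, socle⟩, socle⟩
    · apply le_csInf
      · exact ⟨_, _, isHomogeneous_monomial 1 rfl, _, ⟨vars_isPrime, _, socle⟩, socle⟩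
      · rintro d ⟨f, hf, p, ⟨hp, -⟩, hc⟩
        have hp' : p = idealOfVars (Fin 3) K := prime_eq (k := 2) (m := m) hp hc
        subst hp'
        obtain ⟨h1, h2⟩ := hc.vars
        have hf0 : f ≠ 0 := by
          rintro rfl
          exact h1 (Ideal.zero_mem _)
        obtain ⟨u, hu⟩ := MvPolynomial.support_nonempty.mpr hf0
        have h3 := I_sq_le (h2 0)
        rw [mem_pow_idealOfVars_iff] at h3
        have h4 := h3 (u + Finsupp.single 0 1) (by
          rw [mem_support_iff, mul_comm, coeff_mul_X]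
          exact mem_support_iff.mp hu)
        have h5 := hf (mem_support_iff.mp hu)
        have h6 : u.degree = d := by
          rw [← h5, Finsupp.degree_eq_weight_one]
          rfl
        rw [map_add, h6, Finsupp.degree_single] at h4
        omega

end Pool.Agent.Results.MP_0bcfe8_al.NotMonotone
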